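import Pool.Agent.Helper42.QD.Stmts

namespace Pool.Agent.Helper42.QD

open VD

section k2

variable {D k : Type} [DivisionRing D] [Field k]

/-- Systems of representatives of `P ^ i / P ^ j`. -/
def k2Reps (c : VD D k) (i j : ℤ) (S : Finset D) : Prop :=
  (∀ s ∈ S, c.P i s) ∧ (∀ x, c.P i x → ∃ s ∈ S, c.P j (x - s)) ∧
    ∀ s ∈ S, ∀ s' ∈ S, c.P j (s - s') → s = s'

theorem k2_exists [Finite k] (c : VD D k) {i j : ℤ} (h : i ≤ j) : ∃ S, k2Reps c i j S := by
  obtain ⟨n, hn⟩ : ∃ n : ℕ, j = i + n := ⟨(j - i).toNat, by omega⟩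
  obtain ⟨S, _, h1, h2, h3⟩ := exists_reps c i n
  rw [hn]
  exact ⟨S, h1, h2, h3⟩

theorem k2_nonempty {c : VD D k} {i j : ℤ} {S : Finset D} (hS : k2Reps c i j S) : S.Nonempty := by
  obtain ⟨s, hs, _⟩ := hS.2.1 0 (c.P_zero i)
  exact ⟨s, hs⟩

/-- Sums of periodic functions do not depend on the representatives. -/
theorem k2_sum {M : Type} [AddCommMonoid M] {c : VD D k} {i j : ℤ} (_ : i ≤ j) {S S' : Finset D}
    (hS : k2Reps c i j S) (hS' : k2Reps c i j S') (G : D → M)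
    (hG : ∀ x y, c.P i x → c.P i y → c.P j (x - y) → G x = G y) :
    ∑ b ∈ S, G b = ∑ b ∈ S', G b := by
  classical
  choose f hf hf' using fun s : S => hS'.2.1 s.1 (hS.1 s.1 s.2)
  choose g hg hg' using fun s : S' => hS.2.1 s.1 (hS'.1 s.1 s.2)
  refine Finset.sum_bij (fun s hs => f ⟨s, hs⟩) (fun s hs => hf ⟨s, hs⟩) ?_ ?_ ?_
  · intro a ha b hb hab
    apply hS.2.2 a ha b hb
    have h1 := hf' ⟨a, ha⟩
    have h2 := hf' ⟨b, hb⟩
    have h3 : a - b = (a - f ⟨a, ha⟩) - (b - f ⟨b, hb⟩) := by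
      rw [hab]
      abel
    rw [h3]
    exact P_sub h1 h2
  · intro b hb
    refine ⟨g ⟨b, hb⟩, hg ⟨b, hb⟩, ?_⟩
    apply hS'.2.2 _ (hf _) _ hb
    have h1 := hf' ⟨g ⟨b, hb⟩, hg ⟨b, hb⟩⟩
    have h2 := hg' ⟨b, hb⟩
    have h3 : f ⟨g ⟨b, hb⟩, hg ⟨b, hb⟩⟩ - b =
        -(g ⟨b, hb⟩ - f ⟨g ⟨b, hb⟩, hg ⟨b, hb⟩⟩) - (b - g ⟨b, hb⟩) := by abel
    rw [h3]
    exact P_sub (P_neg h1) h2
  · intro a ha
    exact hG _ _ (hS.1 a ha) (hS'.1 _ (hf _)) (hf' ⟨a, ha⟩)

/-- Sums of periodic functions are translation invariant. -/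
theorem k2_shift {M : Type} [AddCommMonoid M] {c : VD D k} {i j : ℤ} (hij : i ≤ j) {S : Finset D}
    (hS : k2Reps c i j S) (G : D → M)
    (hG : ∀ x y, c.P i x → c.P i y → c.P j (x - y) → G x = G y) {y : D} (hy : c.P i y) :
    ∑ b ∈ S, G (b + y) = ∑ b ∈ S, G b := by
  classical
  have h1 : k2Reps c i j (S.image fun b => b + y) := by
    refine ⟨?_, ?_, ?_⟩
    · intro s hs
      obtain ⟨b, hb, rfl⟩ := Finset.mem_image.1 hs
      exact P_add (hS.1 b hb) hy
    · intro x hx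
      obtain ⟨s, hs, hs'⟩ := hS.2.1 (x - y) (P_sub hx hy)
      refine ⟨s + y, Finset.mem_image.2 ⟨s, hs, rfl⟩, ?_⟩
      have : x - (s + y) = x - y - s := by abel
      rw [this]
      exact hs'
    · intro s hs s' hs' h
      obtain ⟨b, hb, rfl⟩ := Finset.mem_image.1 hs
      obtain ⟨b', hb', rfl⟩ := Finset.mem_image.1 hs'
      rw [hS.2.2 b hb b' hb' (by rwa [add_sub_add_right_eq_sub] at h)]
  rw [k2_sum hij hS h1 G hG, Finset.sum_image]
  intro a _ b _ hab
  exact add_right_cancel hab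

/-- Passage to finer representatives. -/
theorem k2_refine {V : Type} [AddCommGroup V] [Module ℂ V] {c : VD D k} {i j l : ℤ} (hij : i ≤ j)
    (hjl : j ≤ l) {S T U : Finset D}
    (hS : k2Reps c i j S) (hT : k2Reps c j l T) (hU : k2Reps c i l U) (G : D → V)
    (hG : ∀ x y, c.P i x → c.P i y → c.P j (x - y) → G x = G y) :
    ∑ b ∈ U, G b = T.card • ∑ b ∈ S, G b := by
  classical
  have h1 : k2Reps c i l ((S ×ˢ T).image fun p => p.1 + p.2) := by
    refine ⟨?_, ?_, ?_⟩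
    · intro s hs
      obtain ⟨p, hp, rfl⟩ := Finset.mem_image.1 hs
      obtain ⟨h2, h3⟩ := Finset.mem_product.1 hp
      exact P_add (hS.1 _ h2) (P_mono hij (hT.1 _ h3))
    · intro x hx
      obtain ⟨s, hs, hs'⟩ := hS.2.1 x hx
      obtain ⟨t, ht, ht'⟩ := hT.2.1 _ hs'
      refine ⟨s + t, Finset.mem_image.2 ⟨(s, t), Finset.mem_product.2 ⟨hs, ht⟩, rfl⟩, ?_⟩
      have : x - (s + t) = x - s - t := by abel
      rw [this]
      exact ht'
    · intro s hs s' hs' h
      obtain ⟨p, hp, rfl⟩ := Finset.mem_image.1 hs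
      obtain ⟨q, hq, rfl⟩ := Finset.mem_image.1 hs'
      obtain ⟨h2, h3⟩ := Finset.mem_product.1 hp
      obtain ⟨h4, h5⟩ := Finset.mem_product.1 hq
      have e1 : p.1 = q.1 := by
        apply hS.2.2 _ h2 _ h4
        have : p.1 - q.1 = (p.1 + p.2 - (q.1 + q.2)) - p.2 + q.2 := by abel
        rw [this]
        exact P_add (P_sub (P_mono hjl h) (hT.1 _ h3)) (hT.1 _ h5)
      have e2 : p.2 = q.2 := by
        apply hT.2.2 _ h3 _ h5
        rw [e1, add_sub_add_left_eq_sub] at h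
        exact h
      rw [e1, e2]
  rw [k2_sum (hij.trans hjl) hU h1 G fun x y hx hy h => hG x y hx hy (P_mono hjl h),
    Finset.sum_image, Finset.sum_product, Finset.smul_sum]
  · refine Finset.sum_congr rfl fun s hs => ?_
    rw [Finset.sum_congr rfl fun t ht => hG (s + t) s (P_add (hS.1 s hs) (P_mono hij (hT.1 t ht)))
      (hS.1 s hs) (by rw [add_sub_cancel_left]; exact hT.1 t ht), Finset.sum_const]
  · intro p hp q hq h
    have hp' := Finset.mem_product.1 hp
    have hq' := Finset.mem_product.1 hq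
    have e1 : p.1 = q.1 := by
      apply hS.2.2 _ hp'.1 _ hq'.1
      have h' : p.1 + p.2 = q.1 + q.2 := h
      have : p.1 - q.1 = q.2 - p.2 := by
        rw [sub_eq_sub_iff_add_eq_add, h', add_comm]
      rw [this]
      exact P_sub (hT.1 _ hq'.2) (hT.1 _ hp'.2)
    have h' : p.1 + p.2 = q.1 + q.2 := h
    rw [e1] at h'
    exact Prod.ext e1 (add_left_cancel h')

variable {V : Type} [AddCommGroup V] [Module ℂ V]

theorem k2_mul (rho : Representation ℂ (G2 D) V) (g h : G2 D) (v : V) :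
    rho (g * h) v = rho g (rho h v) := by
  rw [map_mul]
  rfl

/-- The summands are periodic. -/
theorem k2_per {c : VD D k} (rho : Representation ℂ (G2 D) V) {M : ℤ} {x z : D} {v : V}
    (hx : c.P (1 - M) x) (hv : ∀ g, KK c M g → rho g v = v) {a b : D} (h : c.P M (a - b)) :
    c.psi (-(x * (a - z))) • rho (nn a) v = c.psi (-(x * (b - z))) • rho (nn b) v := by
  have h1 : rho (nn a) v = rho (nn b) v := by
    have h2 : a = b + (a - b) := by abel
    rw [h2, nn_add, k2_mul, hv _ (KK_nn h)]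
  rw [h1]
  congr 1
  apply psi_congr
  have h3 : -(x * (a - z)) - -(x * (b - z)) = -(x * (a - b)) := by noncomm_ring
  rw [h3]
  exact P_neg (P_mul' hx h (by omega))

/-- Jacquet's criterion, one direction. -/
theorem k2_jacquet {c : VD D k} (rho : Representation ℂ (G2 D) V)
    (hsm : ∀ v : V, ∃ m : ℕ, 0 < m ∧ ∀ g, KK c m g → rho g v = v) (x : D) {v : V}
    (hv : v ∈ tsp rho (fun b => c.psi (x * b))) :
    ∃ M0 : ℤ, ∀ M : ℤ, M0 ≤ M → ∃ n0 : ℤ, ∀ n : ℤ, n0 ≤ n → ∀ S, k2Reps c (-n) M S →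
      ∑ b ∈ S, c.psi (-(x * b)) • rho (nn b) v = 0 := by
  refine Submodule.span_induction ?_ ?_ ?_ ?_ hv
  · rintro w ⟨y, u, rfl⟩
    obtain ⟨m, _, hm⟩ := hsm u
    refine ⟨max m (1 - c.v x), fun M hM => ⟨max (-M) (-c.v y), fun n hn S hS => ?_⟩⟩
    have hx : c.P (1 - M) x := Or.inr (by omega)
    have hy : c.P (-n) y := Or.inr (by omega)
    have hu : ∀ g, KK c M g → rho g u = u := fun g hg => hm g (KK_mono (by omega) hg)
    have h1 := k2_shift (M := V) (c := c) (i := -n) (j := M) (by omega) hS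
      (fun b => c.psi (-(x * (b - y))) • rho (nn b) u)
      (fun a b _ _ h => k2_per rho hx hu h) hy
    have h2 : ∀ b ∈ S, c.psi (-(x * b)) • rho (nn b) (rho (nn y) u - c.psi (x * y) • u) =
        c.psi (-(x * (b + y - y))) • rho (nn (b + y)) u - c.psi (-(x * (b - y))) • rho (nn b) u := by
      intro b _
      rw [map_sub, map_smul, smul_sub, smul_smul, ← AddChar.map_add_eq_mul, nn_add, k2_mul,
        add_sub_cancel_right]
      congr 3
      noncomm_ring
    rw [Finset.sum_congr rfl h2, Finset.sum_sub_distrib, h1, sub_self]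
  · refine ⟨0, fun M _ => ⟨0, fun n _ S _ => ?_⟩⟩
    simp
  · rintro v w _ _ ⟨M1, h1⟩ ⟨M2, h2⟩
    refine ⟨max M1 M2, fun M hM => ?_⟩
    obtain ⟨n1, h3⟩ := h1 M (by omega)
    obtain ⟨n2, h4⟩ := h2 M (by omega)
    refine ⟨max n1 n2, fun n hn S hS => ?_⟩
    simp only [map_add, smul_add, Finset.sum_add_distrib]
    rw [h3 n (by omega) S hS, h4 n (by omega) S hS, add_zero]
  · rintro a v _ ⟨M1, h1⟩
    refine ⟨M1, fun M hM => ?_⟩
    obtain ⟨n1, h3⟩ := h1 M hM
    refine ⟨n1, fun n hn S hS => ?_⟩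
    have h4 : ∀ b ∈ S, c.psi (-(x * b)) • rho (nn b) (a • v) =
        a • (c.psi (-(x * b)) • rho (nn b) v) := by
      intro b _
      rw [map_smul, smul_comm]
    rw [Finset.sum_congr rfl h4, ← Finset.smul_sum, h3 n hn S hS, smul_zero]

/-- One refinement step. -/
theorem k2_step [Finite k] {c : VD D k} (rho : Representation ℂ (G2 D) V) {m j : ℤ} (hj : 0 ≤ j)
    {x : D} {v : V} (hx : c.P (1 - m) x) (hv : ∀ g, KK c m g → rho g v = v) {S S' : Finset D}
    (hS : k2Reps c (m - j) m S) (hS' : k2Reps c (m - (j + 1)) m S')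
    (h : ∑ b ∈ S, c.psi (-(x * b)) • rho (nn b) v ≠ 0) :
    ∃ y, c.P (1 + j - m) (y - x) ∧ ∑ b ∈ S', c.psi (-(y * b)) • rho (nn b) v ≠ 0 := by
  classical
  by_contra hcon
  push Not at hcon
  apply h
  obtain ⟨U, hU0, hU1, hU2, hU3⟩ := exists_reps c (1 + j - m) 1
  have hP : ∀ a b : D, c.P m (a - b) →
      c.psi (-(x * a)) • rho (nn a) v = c.psi (-(x * b)) • rho (nn b) v := by
    intro a b hab
    have := k2_per (z := 0) rho hx hv hab
    simpa using this
  have h1 : ∑ t ∈ U, ∑ b ∈ S', c.psi (-((x + t) * b)) • rho (nn b) v = 0 := by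
    refine Finset.sum_eq_zero fun t ht => hcon (x + t) ?_
    rw [add_sub_cancel_left]
    exact hU1 t ht
  rw [Finset.sum_comm] at h1
  have h2 : ∀ b ∈ S', ∑ t ∈ U, c.psi (-((x + t) * b)) • rho (nn b) v =
      if c.P (m - j) b then (U.card : ℂ) • (c.psi (-(x * b)) • rho (nn b) v) else 0 := by
    intro b hb
    have hb' := hS'.1 b hb
    have h3 : ∀ t ∈ U, c.psi (-((x + t) * b)) • rho (nn b) v =
        c.psi (-b * t) • (c.psi (-(x * b)) • rho (nn b) v) := by
      intro t _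
      rw [smul_smul, c.psi_comm, ← AddChar.map_add_eq_mul]
      congr 2
      noncomm_ring
    have h4 := chsum (c := c) (i := 1 + j - m) (n := 1) hU1 hU2 hU3 (z := -b)
      (P_neg (P_mono (by push_cast; omega) hb'))
    rw [Finset.sum_congr rfl h3, ← Finset.sum_smul, h4]
    have h5 : c.P (1 - (1 + j - m)) (-b) ↔ c.P (m - j) b := by
      have e : 1 - (1 + j - m) = m - j := by omega
      rw [e]
      exact ⟨fun h => by simpa using P_neg h, P_neg⟩
    by_cases h6 : c.P (m - j) b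
    · rw [if_pos (h5.2 h6), if_pos h6]
    · rw [if_neg (fun h => h6 (h5.1 h)), if_neg h6, zero_smul]
  rw [Finset.sum_congr rfl h2, ← Finset.sum_filter, ← Finset.smul_sum] at h1
  have h3 : (U.card : ℂ) ≠ 0 := by exact_mod_cast hU0.card_pos.ne'
  have h4 := (smul_eq_zero.1 h1).resolve_left h3
  have h5 : k2Reps c (m - j) m (S'.filter fun b => c.P (m - j) b) := by
    refine ⟨fun s hs => (Finset.mem_filter.1 hs).2, fun y hy => ?_, fun s hs s' hs' h => ?_⟩
    · obtain ⟨s, hs, hs'⟩ := hS'.2.1 y (P_mono (by omega) hy)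
      refine ⟨s, Finset.mem_filter.2 ⟨hs, ?_⟩, hs'⟩
      have : s = y - (y - s) := by abel
      rw [this]
      exact P_sub hy (P_mono (by omega) hs')
    · exact hS'.2.2 s (Finset.mem_filter.1 hs).1 s' (Finset.mem_filter.1 hs').1 h
  rw [← h4]
  exact k2_sum (by omega) hS h5 _ fun a b _ _ hab => hP a b hab

/-- Membership in all the twisted spaces. -/
theorem k2_mem {c : VD D k} (rho : Representation ℂ (G2 D) V) (l : V →ₗ[ℂ] ℂ)
    (htop : tsp rho (fun _ => 1) = ⊤) (hl : ∀ v, l v = 0 ↔ v ∈ tsp rho c.psi) {v : V}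
    (hv : ∀ x, x ≠ 0 → l (rho (dg x 1) v) = 0) (x : D) :
    v ∈ tsp rho (fun b => c.psi (x * b)) := by
  by_cases hx : x = 0
  · have h1 : (fun b => c.psi (x * b)) = fun _ : D => (1 : ℂ) := by
      funext b
      rw [hx, zero_mul, AddChar.map_zero_eq_one]
    rw [h1, htop]
    trivial
  · have h1 := (hl _).1 (hv x hx)
    have h2 : rho (dg x 1)⁻¹ (rho (dg x 1) v) = v := by
      rw [← k2_mul, inv_mul_cancel, map_one]
      rfl
    rw [← h2]
    have h3 : (tsp rho c.psi).map (rho (dg x 1)⁻¹) ≤ tsp rho (fun b => c.psi (x * b)) := by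
      rw [tsp, Submodule.map_span, Submodule.span_le]
      rintro _ ⟨_, ⟨y, u, rfl⟩, rfl⟩
      apply Submodule.subset_span
      refine ⟨x⁻¹ * y, rho (dg x 1)⁻¹ u, ?_⟩
      have e : (fun b => c.psi (x * b)) (x⁻¹ * y) = c.psi y := by
        change c.psi (x * (x⁻¹ * y)) = _
        rw [mul_inv_cancel_left₀ hx]
      rw [e, map_sub, map_smul, ← k2_mul, ← k2_mul]
      congr 3
      have h4 := dg_nn (a := x) (d := (1 : D)) hx one_ne_zero (x⁻¹ * y)
      rw [inv_one, mul_one, mul_inv_cancel_left₀ hx] at h4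
      rw [inv_mul_eq_iff_eq_mul, ← mul_assoc, h4, mul_inv_cancel_right]
    exact h3 (Submodule.mem_map_of_mem h1)

end k2

theorem st_K2 : ST_K2 := by
  intro D k _ _ _ c V _ _ rho l hC hsm htop hl v hv
  classical
  by_contra hv0
  obtain ⟨m, hm0, hm⟩ := hsm v
  choose S hS using fun j : ℕ => k2_exists c (i := (m : ℤ) - j) (j := m) (by omega)
  let Good : ℕ → D → Prop := fun j x => c.P (1 - m) x ∧
    ∑ b ∈ S j, c.psi (-(x * b)) • rho (nn b) v ≠ 0
  have h0 : Good 0 0 := by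
    refine ⟨c.P_zero _, ?_⟩
    have h1 : k2Reps c ((m : ℤ) - (0 : ℕ)) m {0} := by
      refine ⟨fun s hs => ?_, fun x hx => ⟨0, Finset.mem_singleton_self _, ?_⟩, ?_⟩
      · rw [Finset.mem_singleton.1 hs]
        exact c.P_zero _
      · rw [sub_zero]
        simpa using hx
      · intro s hs s' hs' _
        rw [Finset.mem_singleton.1 hs, Finset.mem_singleton.1 hs']
    rw [k2_sum (by simp) (hS 0) h1 _ fun a b _ _ hab => by
      have := k2_per (z := 0) rho (c.P_zero (1 - (m : ℤ))) hm hab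
      simpa using this]
    simpa [nn_zero] using hv0
  have h1 : ∀ j x, Good j x → ∃ y, Good (j + 1) y ∧ c.P (1 + j - m) (y - x) := by
    rintro j x ⟨hx1, hx2⟩
    have h2 := hS (j + 1)
    push_cast at h2
    obtain ⟨y, hy1, hy2⟩ := k2_step rho (by omega) hx1 hm (hS j) h2 hx2
    refine ⟨y, ⟨?_, hy2⟩, hy1⟩
    have : y = x + (y - x) := by abel
    rw [this]
    exact P_add hx1 (P_mono (by omega) hy1)
  choose nx hnx hnx' using h1
  let xs : (j : ℕ) → {x : D // Good j x} := fun j =>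
    Nat.rec ⟨0, h0⟩ (fun j p => ⟨nx j p.1 p.2, hnx j p.1 p.2⟩) j
  have hxs : ∀ j : ℕ, c.P (1 + j - m) ((xs (j + 1)).1 - (xs j).1) := fun j =>
    hnx' j (xs j).1 (xs j).2
  obtain ⟨x, hx⟩ := hC (fun n => (xs (n + m)).1) fun n => by
    have := hxs (n + m)
    have e : n + 1 + m = n + m + 1 := by omega
    rw [e]
    exact P_mono (by push_cast; omega) this
  have hx' : ∀ j : ℕ, m ≤ j → c.P (1 + j - m) (x - (xs j).1) := by
    intro j hj
    have h2 := hx (j + 1 - m)
    have e : j + 1 - m + m = j + 1 := by omega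
    rw [e] at h2
    have h3 : x - (xs j).1 = (x - (xs (j + 1)).1) + ((xs (j + 1)).1 - (xs j).1) := by abel
    rw [h3]
    exact P_add (P_mono (by omega) h2) (hxs j)
  have hxm : c.P (1 - m) x := by
    have h2 := hx' m le_rfl
    have h3 : x = (x - (xs m).1) + (xs m).1 := by abel
    rw [h3]
    exact P_add (P_mono (by omega) h2) (xs m).2.1
  have hne : ∀ j : ℕ, m ≤ j → ∑ b ∈ S j, c.psi (-(x * b)) • rho (nn b) v ≠ 0 := by
    intro j hj
    have h2 := (xs j).2.2
    rwa [Finset.sum_congr rfl fun b hb => ?_] at h2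
    congr 1
    apply psi_congr
    have h3 : -((xs j).1 * b) - -(x * b) = (x - (xs j).1) * b := by noncomm_ring
    rw [h3]
    exact P_mul' (hx' j hj) ((hS j).1 b hb) (by omega)
  obtain ⟨M0, hM0⟩ := k2_jacquet rho hsm x (k2_mem rho l htop hl hv x)
  obtain ⟨n0, hn0⟩ := hM0 (max M0 m) (by omega)
  obtain ⟨j, hj1, hj2⟩ : ∃ j : ℕ, m ≤ j ∧ n0 ≤ (j : ℤ) - m :=
    ⟨m + n0.toNat, by omega, by omega⟩
  obtain ⟨T, hT⟩ := k2_exists c (i := (m : ℤ)) (j := max M0 m) (by omega)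
  obtain ⟨U, hU⟩ := k2_exists c (i := (m : ℤ) - j) (j := max M0 m) (by omega)
  have h2 := hn0 ((j : ℤ) - m) hj2 U (by
    have e : -((j : ℤ) - m) = m - j := by omega
    rw [e]
    exact hU)
  rw [k2_refine (by omega) (by omega) (hS j) hT hU _ fun a b _ _ hab => by
    have := k2_per (z := 0) rho hxm hm hab
    simpa using this, ← Nat.cast_smul_eq_nsmul ℂ] at h2
  have h3 : (T.card : ℂ) ≠ 0 := by exact_mod_cast (k2_nonempty hT).card_pos.ne'
  exact hne j hj1 ((smul_eq_zero.1 h2).resolve_left h3)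

end Pool.Agent.Helper42.QD
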